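import Mathlib

namespace Pool.Agent.Results.MP_407f73_al.NotFree

/-- action of a state on words for the automaton with transition `d` and output `l` -/
def act {Q A : Type} (d : Q → A → Q) (l : Q → A → A) : Q → List A → List A
  | _, [] => []
  | q, a :: w => l q a :: act d l (d q a) w

/-- the map induced by a word of states, the first state acting first -/
def wordAct {Q A : Type} (d : Q → A → Q) (l : Q → A → A) : List Q → List A → List A
  | [], w => w
  | q :: s, w => wordAct d l s (act d l q w)

abbrev St := Fin 5
abbrev Lt := Bool × Bool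

/-- states: 0 = e, 1 = e', 2 = a, 3 = a', 4 = t -/
def dd (q : St) (x : Lt) : St :=
  if q = 2 then (if x.1 then 2 else 0)
  else if q = 3 then (if x.1 then 0 else 3)
  else if q = 4 then (if x.1 then (if x.2 then 1 else 0) else 4)
  else 0

def ll (q : St) (x : Lt) : Lt :=
  if q = 2 ∨ q = 3 then (!x.1, x.2) else if q = 4 then (x.1, !x.2) else x

lemma act0 (w : List Lt) : act dd ll 0 w = w := by
  induction w with
  | nil => rfl
  | cons a w ih => simp [act, dd, ll, ih]

lemma act1 (w : List Lt) : act dd ll 1 w = w := by
  cases w with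
  | nil => rfl
  | cons a w => simp [act, dd, ll, act0]

lemma wordAct_append {Q A : Type} (d : Q → A → Q) (l : Q → A → A) (s t : List Q) (w : List A) :
    wordAct d l (s ++ t) w = wordAct d l t (wordAct d l s w) := by
  induction s generalizing w with
  | nil => rfl
  | cons q s ih => simp [wordAct, ih]

def R (u v : List Lt) : Prop := ∃ s : List St, wordAct dd ll s u = v

lemma R.refl (u : List Lt) : R u u := ⟨[], rfl⟩
lemma R.trans {u v w : List Lt} (h1 : R u v) (h2 : R v w) : R u w := by
  obtain ⟨s, rfl⟩ := h1
  obtain ⟨t, rfl⟩ := h2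
  exact ⟨s ++ t, wordAct_append _ _ _ _ _⟩

lemma R01 (f : Bool) (w : List Lt) : R ((false, f) :: w) ((true, f) :: w) :=
  ⟨[2], by simp [wordAct, act, dd, ll, act0]⟩
lemma R10 (f : Bool) (w : List Lt) : R ((true, f) :: w) ((false, f) :: w) :=
  ⟨[3], by simp [wordAct, act, dd, ll, act0]⟩
lemma Rf (f : Bool) (w : List Lt) : R ((true, f) :: w) ((true, !f) :: w) :=
  ⟨[4], by cases f <;> simp [wordAct, act, dd, ll, act0, act1]⟩

lemma Rto (x : Lt) (w : List Lt) : R (x :: w) ((true, true) :: w) := by
  rcases x with ⟨_ | _, _ | _⟩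
  · exact (R01 _ _).trans (Rf false w)
  · exact R01 _ _
  · exact Rf false w
  · exact R.refl _

lemma Rfrom (x : Lt) (w : List Lt) : R ((true, true) :: w) (x :: w) := by
  rcases x with ⟨_ | _, _ | _⟩
  · exact (Rf true w).trans (R10 _ _)
  · exact R10 _ _
  · exact Rf true w
  · exact R.refl _

lemma Rhead (x y : Lt) (w : List Lt) : R (x :: w) (y :: w) := (Rto x w).trans (Rfrom y w)

lemma Rlift1 (q : St) (w : List Lt) : R ((true, true) :: w) ((true, true) :: act dd ll q w) := by
  fin_cases q
  · simpa [act0] using R.refl _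
  · simpa [act1] using R.refl _
  · refine R.trans ⟨[2], ?_⟩ (Rhead (false, true) _ _)
    simp [wordAct, act, dd, ll]
  · refine (Rhead _ (false, true) _).trans (R.trans ⟨[3], ?_⟩ (Rhead (true, true) _ _))
    simp [wordAct, act, dd, ll]
  · refine (Rhead _ (false, true) _).trans (R.trans ⟨[4], ?_⟩ (Rhead (false, false) _ _))
    simp [wordAct, act, dd, ll]

lemma Rlift {u v : List Lt} (h : R u v) : R ((true, true) :: u) ((true, true) :: v) := by
  obtain ⟨s, rfl⟩ := h
  induction s generalizing u with
  | nil => exact R.refl _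
  | cons q s ih => exact (Rlift1 q u).trans ih

lemma Rall (u v : List Lt) (h : u.length = v.length) : R u v := by
  induction u generalizing v with
  | nil => cases v with
    | nil => exact R.refl _
    | cons _ _ => simp at h
  | cons x u ih => cases v with
    | nil => simp at h
    | cons y v =>
      have := ih v (by simpa using h)
      exact (Rto x u).trans ((Rlift this).trans (Rfrom y v))

def nm (q : St) : St := if q = 1 then 0 else q

abbrev D : Lt → List St → List St := act (fun a q => ll q a) (fun a q => dd q a)

lemma D_nm (y : Lt) (w : List St) : D y (w.map nm) = D y w := by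
  induction w generalizing y with
  | nil => rfl
  | cons q w ih =>
    have h1 : ∀ (q : St) (y : Lt), dd (nm q) y = dd q y ∧ ll (nm q) y = ll q y := by decide
    simp only [List.map_cons, D, act, (h1 q y).1, (h1 q y).2]
    exact congrArg _ (ih _)

lemma nm_D (x x' : Lt) (h : x.1 = x'.1) (w : List St) : (D x w).map nm = (D x' w).map nm := by
  induction w generalizing x x' with
  | nil => rfl
  | cons q w ih =>
    have h1 : ∀ (q : St) (x x' : Lt), x.1 = x'.1 →
        nm (dd q x) = nm (dd q x') ∧ (ll q x).1 = (ll q x').1 := by decide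
    simp only [D, act, List.map_cons, (h1 q x x' h).1]
    rw [ih _ _ (h1 q x x' h).2]

theorem result : ∃ (Q A : Type) (_ : Fintype Q) (_ : Fintype A) (d : Q → A → Q) (l : Q → A → A),
    Nonempty Q ∧ 2 ≤ Fintype.card A ∧ (∀ q, Function.Bijective (l q)) ∧
    (∀ n, 1 ≤ n → ∀ u v : List A, u.length = n → v.length = n →
      ∃ s : List Q, s ≠ [] ∧ wordAct d l s u = v) ∧
    ∃ x x' y : A,
      act (fun a q => l q a) (fun a q => d q a) x ≠ act (fun a q => l q a) (fun a q => d q a) x' ∧
      [x, y] ≠ [x', y] ∧
      wordAct (fun a q => l q a) (fun a q => d q a) [x, y] =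
        wordAct (fun a q => l q a) (fun a q => d q a) [x', y] := by
  refine ⟨St, Lt, inferInstance, inferInstance, dd, ll, ⟨0⟩, by decide, by decide, ?_,
    (true, false), (true, true), (true, true), ?_, by decide, ?_⟩
  · intro n _ u v hu hv
    obtain ⟨s, hs⟩ := Rall u v (hu.trans hv.symm)
    exact ⟨0 :: s, by simp, by simpa [wordAct, act0] using hs⟩
  · intro h
    have := congrFun h [4]
    revert this
    decide
  · funext w
    change D _ (D _ w) = D _ (D _ w)
    rw [← D_nm, nm_D (true, false) (true, true) rfl, D_nm]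

end Pool.Agent.Results.MP_407f73_al.NotFree
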